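import Pool.Agent.N300.UN.Stubs2

/-! UN/CJN (helper272): `C([0,1]^n)` is approximately conjugate into copies of `C([0,1])`. -/

set_option autoImplicit false

noncomputable section

namespace Pool.Agent.N272.UN

open Pool.Agent.H923R2.FP Pool.Agent.H923R2.FZ Pool.Agent.N300.UN

/-- freeness is inherited by injective reindexing and by smaller algebras -/
theorem freeFam_reindex {A : Type} [CStarAlgebra A] {τ : A →ₗ[ℂ] ℂ} {K K' : Type}
    {S' : K' → StarSubalgebra ℂ A} (h : FreeFam τ S') (j : K → K') (hj : Function.Injective j)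
    {S : K → StarSubalgebra ℂ A} (hS : ∀ k, S k ≤ S' (j k)) : FreeFam τ S := by
  intro w hw hz hc
  have key := h (w.map (fun z => (j z.1, z.2))) (by simpa using hw) ?_ ?_
  · rw [List.map_map] at key
    exact key
  · intro z hz'
    rw [List.mem_map] at hz'
    obtain ⟨y, hy, rfl⟩ := hz'
    exact ⟨hS _ (hz y hy).1, (hz y hy).2⟩
  · rw [List.isChain_map]
    exact hc.imp (fun a b hab h' => hab (hj h'))

/-- open sets of the interval have positive measure -/
instance openPos : (MeasureTheory.volume : MeasureTheory.Measure unitInterval).IsOpenPosMeasure where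
  open_pos U hU hne := by
    obtain ⟨a, b, hab, hsub⟩ := hU.exists_Ioo_subset hne
    have h1 : MeasureTheory.volume (Set.Ioo a b) ≤ MeasureTheory.volume U :=
      MeasureTheory.measure_mono hsub
    rw [unitInterval.volume_Ioo] at h1
    have h2 : (0 : ENNReal) < ENNReal.ofReal ((b : ℝ) - a) := by
      rw [ENNReal.ofReal_pos]
      have : (a : ℝ) < b := hab
      linarith
    exact (h2.trans_le h1).ne'

/-- open sets of the cube have positive measure -/
instance openPosC (n : ℕ) :
    (MeasureTheory.volume : MeasureTheory.Measure (Cube n)).IsOpenPosMeasure := by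
  rw [MeasureTheory.volume_pi]
  infer_instance

/-- the Lebesgue integral on the cube is faithful -/
theorem lebn_faith (n : ℕ) (x : C(Cube n, ℂ)) (hx : lebn n (star x * x) = 0) : x = 0 := by
  have h1 : ∫ t : Cube n, ‖x t‖ ^ 2 = 0 := by
    have h2 : lebn n (star x * x) = ((∫ t : Cube n, ‖x t‖ ^ 2 : ℝ) : ℂ) := by
      unfold lebn
      rw [← integral_complex_ofReal]
      congr 1
      funext t
      simp only [ContinuousMap.mul_apply, ContinuousMap.star_apply]
      have := Complex.conj_mul' (x t)
      simpa using this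
    rw [h2] at hx
    exact_mod_cast hx
  have hc : Continuous fun t : Cube n => ‖x t‖ ^ 2 := by fun_prop
  have hi : MeasureTheory.Integrable (fun t : Cube n => ‖x t‖ ^ 2) :=
    hc.integrable_of_hasCompactSupport (HasCompactSupport.of_compactSpace _)
  rw [MeasureTheory.integral_eq_zero_iff_of_nonneg (fun t => by positivity) hi] at h1
  have h3 := (Continuous.ae_eq_iff_eq _ hc continuous_zero).1 h1
  ext t
  have h4 := congrFun h3 t
  simp only [Pi.zero_apply] at h4
  simpa using h4

theorem t_CJN (hC : S_CORE) (hH : S_HC) (hG : S_GRP2) : S_CJN := by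
  intro n hn B _ τ d f hR G ε hε
  obtain ⟨p, hp⟩ := hH n hn
  set cp : C(Cube n, ℂ) →⋆ₐ[ℂ] C(unitInterval, ℂ) := ContinuousMap.compStarAlgHom' ℂ ℂ p with hcp
  have hψ : ∀ x, τ (((f 0).comp cp) x) = lebn n x := by
    intro x
    rw [StarAlgHom.comp_apply, hR.trf, ← hp x]
    rfl
  have hfree : FreeFam τ (fun o : Option ℕ => o.elim (d.range ⊔ (f 0).range)
      fun k => (f (k + 1)).range) := by
    have h1 := hG B τ hR.fts (Unit ⊕ ℕ) _ hR.free {o | o = Sum.inl () ∨ o = Sum.inr 0}
    refine freeFam_reindex h1 (fun o => o.elim none fun k => some ⟨Sum.inr (k + 1), by simp⟩) ?_ ?_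
    · intro a b hab
      cases a <;> cases b <;> simp_all
    · intro o
      cases o with
      | none =>
        refine sup_le ?_ ?_
        · exact le_iSup (fun k : {k : Unit ⊕ ℕ // k ∈ {o | o = Sum.inl () ∨ o = Sum.inr 0}} =>
            (Sum.elim (fun j : Unit => d.range) (fun n => (f n).range) k.1 : StarSubalgebra ℂ B))
            ⟨Sum.inl (), Or.inl rfl⟩
        · exact le_iSup (fun k : {k : Unit ⊕ ℕ // k ∈ {o | o = Sum.inl () ∨ o = Sum.inr 0}} =>
            (Sum.elim (fun j : Unit => d.range) (fun n => (f n).range) k.1 : StarSubalgebra ℂ B))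
            ⟨Sum.inr 0, Or.inr rfl⟩
      | some k => exact le_refl _
  have hinj : Function.Injective d := by
    rw [injective_iff_map_eq_zero]
    intro x hx
    apply lebn_faith
    have h1 := hR.tr () (star x * x)
    rw [map_mul, hx, mul_zero, map_zero] at h1
    exact h1.symm
  obtain ⟨v, hv⟩ := hC B τ (d.range ⊔ (f 0).range) (fun k => f (k + 1)) hR.fts
    (fun k x => hR.trf (k + 1) x) hfree n d ((f 0).comp cp)
    (fun x => (le_sup_left : d.range ≤ d.range ⊔ (f 0).range) ⟨x, rfl⟩)
    (fun x => (le_sup_right : (f 0).range ≤ d.range ⊔ (f 0).range) ⟨cp x, rfl⟩)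
    (fun x => (hR.tr () x).trans (hψ x).symm) hinj G ε hε
  refine ⟨v, fun g hg => ⟨((f 0).comp cp) g, ?_, hv g hg⟩⟩
  exact StarAlgebra.subset_adjoin ℂ _ (Set.mem_iUnion.2 ⟨0, ⟨cp g, rfl⟩⟩)

end Pool.Agent.N272.UN
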