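import Pool.Agent.N300.UN.Stubs2

/-! UN/RES47 (helper272): `C([0,1]^n) * C([0,1])^{*∞} ≅ C([0,1])^{*∞}`. -/

set_option autoImplicit false

noncomputable section

namespace Pool.Agent.N272.UN

open Pool.Agent.H923R2.FP Pool.Agent.H923R2.FZ Pool.Agent.N300.UN

open scoped CStarAlgebra

/-- freeness is inherited by injective reindexing and by smaller algebras -/
theorem freeFam_ri {A : Type} [CStarAlgebra A] {τ : A →ₗ[ℂ] ℂ} {K K' : Type}
    {S' : K' → StarSubalgebra ℂ A} (h : FreeFam τ S') (j : K → K') (hj : Function.Injective j)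
    {S : K → StarSubalgebra ℂ A} (hS : ∀ k, S k ≤ S' (j k)) : FreeFam τ S := by
  intro w hw hz hc
  have key := h (w.map (fun z => (j z.1, z.2))) (by simpa using hw) ?_ ?_
  · rw [List.map_map] at key
    exact key
  · intro z hz'
    rw [List.mem_map] at hz'
    obtain ⟨y, hy, rfl⟩ := hz'
    exact ⟨hS _ (hz y hy).1, (hz y hy).2⟩
  · rw [List.isChain_map]
    exact hc.imp (fun a b hab h' => hab (hj h'))

/-- the image of a free family under a trace preserving homomorphism is free -/
theorem freeFam_image {A B : Type} [CStarAlgebra A] [CStarAlgebra B] {τA : A →ₗ[ℂ] ℂ}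
    {τ : B →ₗ[ℂ] ℂ} (j : A →⋆ₐ[ℂ] B) (hj : ∀ x, τ (j x) = τA x) {K : Type}
    {S : K → StarSubalgebra ℂ A} (h : FreeFam τA S) {S' : K → StarSubalgebra ℂ B}
    (hS : ∀ k, ∀ y ∈ S' k, ∃ x ∈ S k, j x = y) : FreeFam τ S' := by
  intro w hw hz hc
  have hex : ∀ w : List (K × B), (∀ z ∈ w, z.2 ∈ S' z.1 ∧ τ z.2 = 0) →
      ∃ v : List (K × A), v.map (fun z => (z.1, j z.2)) = w ∧
        ∀ z ∈ v, z.2 ∈ S z.1 ∧ τA z.2 = 0 := by
    intro w
    induction w with
    | nil => intro _; exact ⟨[], rfl, by simp⟩
    | cons a w ih =>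
      intro hw
      obtain ⟨v, hv1, hv2⟩ := ih (fun z hz => hw z (List.mem_cons_of_mem _ hz))
      obtain ⟨x, hx, hxa⟩ := hS a.1 a.2 (hw a List.mem_cons_self).1
      refine ⟨(a.1, x) :: v, ?_, ?_⟩
      · rw [List.map_cons, hv1, hxa]
      · intro z hz'
        rcases List.mem_cons.1 hz' with rfl | hz'
        · refine ⟨hx, ?_⟩
          rw [← hj, hxa]
          exact (hw a List.mem_cons_self).2
        · exact hv2 z hz'
  obtain ⟨v, rfl, hv⟩ := hex w hz
  have h1 := h v (by simpa using hw) hv (by
    rw [List.isChain_map] at hc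
    exact hc)
  rw [List.map_map]
  have h2 : (v.map (Prod.snd ∘ fun z : K × A => (z.1, j z.2))).prod = j ((v.map Prod.snd).prod) := by
    rw [map_list_prod, List.map_map]
    rfl
  rw [h2, hj, h1]

theorem t_RES47 (hA : S_ABSN) (hU : S_UNG2) (hQ : Pool.Agent.H923R2.FP.S_UNIQ) : S_RES47 := by
  intro n hn W B _ _ τW g hg τ i j hτ hti htj hfree hgen
  -- freeness
  have hf1 : FreeFam τ (fun o : Option ℕ => o.elim i.range fun k => (j.comp (g k)).range) := by
    refine hU B τ hτ (Option ℕ) _ {o | o ≠ none} j.range ?_ ?_ ?_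
    · intro k hk
      cases k with
      | none => exact absurd rfl hk
      | some k =>
        rintro _ ⟨x, rfl⟩
        exact ⟨g k x, rfl⟩
    · have h1 : FreeFam τ (fun k : ℕ => (j.comp (g k)).range) := by
        refine freeFam_image j htj hg.free ?_
        rintro k _ ⟨x, rfl⟩
        exact ⟨g k x, ⟨x, rfl⟩, rfl⟩
      refine freeFam_ri h1 (fun k => k.1.getD 0) ?_ ?_
      · rintro ⟨a, ha⟩ ⟨b, hb⟩ hab
        cases a with
        | none => exact absurd rfl ha
        | some a =>
          cases b with
          | none => exact absurd rfl hb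
          | some b => simpa using hab
      · rintro ⟨a, ha⟩
        cases a with
        | none => exact absurd rfl ha
        | some a => exact le_refl _
    · refine freeFam_ri hfree (fun o => o.elim false fun _ => true) ?_ ?_
      · intro a b hab
        cases a with
        | none =>
          cases b with
          | none => rfl
          | some b => simp at hab
        | some a =>
          cases b with
          | none => simp at hab
          | some b =>
            have ha : a.1 = none := by simpa using a.2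
            have hb : b.1 = none := by simpa using b.2
            congr 1
            exact Subtype.ext (ha.trans hb.symm)
      · intro o
        cases o with
        | none => exact le_refl _
        | some a =>
          have ha : a.1 = none := by simpa using a.2
          simp only [Option.elim, ha, if_true]
          exact le_refl _
  -- generation
  set C : StarSubalgebra ℂ B := (StarAlgebra.adjoin ℂ
    ((⋃ e : Empty, Set.range (e.elim : ℂ →⋆ₐ[ℂ] B)) ∪ Set.range i ∪
      ⋃ k, Set.range (j.comp (g k)))).topologicalClosure with hC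
  have hCc : IsClosed (C : Set B) := StarSubalgebra.isClosed_topologicalClosure _
  have hsub : ∀ x ∈ ((⋃ e : Empty, Set.range (e.elim : ℂ →⋆ₐ[ℂ] B)) ∪ Set.range i ∪
      ⋃ k, Set.range (j.comp (g k)) : Set B), x ∈ C := fun x hx =>
    StarSubalgebra.le_topologicalClosure _ (StarAlgebra.subset_adjoin ℂ _ hx)
  have hjC : ∀ x, j x ∈ C := by
    have h1 : (StarAlgebra.adjoin ℂ (⋃ k, Set.range (g k))).topologicalClosure ≤ C.comap j := by
      refine StarSubalgebra.topologicalClosure_minimal ?_ ?_
      · refine StarAlgebra.adjoin_le ?_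
        rintro _ hx
        obtain ⟨k, x, rfl⟩ := Set.mem_iUnion.1 hx
        exact hsub _ (Or.inr (Set.mem_iUnion.2 ⟨k, ⟨x, rfl⟩⟩))
      · exact hCc.preimage (map_continuous j)
    intro x
    have h2 : x ∈ (⊤ : StarSubalgebra ℂ W) := trivial
    rw [← hg.gen] at h2
    exact h1 h2
  have hC1 : C = ⊤ := by
    rw [eq_top_iff, ← hgen]
    refine StarSubalgebra.topologicalClosure_minimal ?_ hCc
    refine StarAlgebra.adjoin_le ?_
    rintro _ (⟨x, rfl⟩ | ⟨x, rfl⟩)
    · exact hsub _ (Or.inl (Or.inr ⟨x, rfl⟩))
    · exact hjC x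
  obtain ⟨f', hf'⟩ := hA Empty (fun _ => ℂ) (fun _ _ => 0) n hn B τ (fun e => e.elim) i
    (fun k => j.comp (g k)) hτ (fun e => e.elim) hti
    (fun k x => (htj (g k x)).trans (hg.tr k x))
    (freeFam_ri hf1 (fun o => o.elim Empty.elim id) (by
      rintro (a | a) (b | b) hab
      · exact a.elim
      · exact a.elim
      · exact b.elim
      · exact congrArg _ hab) (by
      rintro (a | a)
      · exact a.elim
      · exact le_refl _)) hC1
  have hR : RFP (J := ℕ) (fun _ => C(unitInterval, ℂ)) (fun _ => leb) τ f' := by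
    refine ⟨hτ, hf'.trf, ?_, ?_⟩
    · exact freeFam_ri hf'.free Sum.inr Sum.inr_injective (fun k => le_refl _)
    · have h1 := hf'.gen
      rw [Set.iUnion_of_empty, Set.empty_union] at h1
      exact h1
  obtain ⟨Φ, _, hΦ⟩ := hQ ℕ (fun _ => C(unitInterval, ℂ)) (fun _ => leb) B W τ τW f' g hR hg
  exact ⟨Φ, hΦ⟩

end Pool.Agent.N272.UN
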